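import Pool.Agent.Lib.MP_9fae52_an.Upper

/-!
The optimal motion.
-/

namespace Pool.Agent.Lib.MP_9fae52_an.Best

open Set Real

/-- the angle of the first stage -/
noncomputable def al : ℝ := arcsin ((6 - √6) / 10)

theorem s6 : √6 ^ 2 = 6 := sq_sqrt (by norm_num)
theorem s6_ge : 2.4494 ≤ √6 := le_sqrt_of_sq_le (by norm_num)
theorem s6_le : √6 ≤ 2.4495 := sqrt_le_iff.2 ⟨by norm_num, by norm_num⟩

theorem sin_al : sin al = (6 - √6) / 10 :=
  sin_arcsin (by linarith [s6_le]) (by linarith [s6_ge])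
theorem cos_al : cos al = (2 + 3 * √6) / 10 := by
  rw [al, cos_arcsin, show 1 - ((6 - √6) / 10) ^ 2 = ((2 + 3 * √6) / 10) ^ 2 by
    linear_combination (-1 / 10) * s6]
  exact Real.sqrt_sq (by positivity)
theorem al_nonneg : 0 ≤ al := arcsin_nonneg.mpr (by linarith [s6_le])
theorem al_le : al ≤ 0.3631 := by
  have h1 := sin_ge_sub_cube (x := 0.3631) (by norm_num)
  have h2 : (6 - √6) / 10 ≤ sin 0.3631 := le_trans (by linarith [s6_ge]) (le_trans (by norm_num :
    (0.35506 : ℝ) ≤ _) h1)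
  calc al ≤ arcsin (sin 0.3631) := arcsin_le_arcsin h2
    _ = 0.3631 := arcsin_sin (by linarith [pi_gt_three]) (by linarith [pi_gt_three])

/-- the lag between the two ends in the second stage -/
noncomputable def vv (τ : ℝ) : ℝ := (√(1 + 14 * (τ * (1 - τ))) - 1) / 7

theorem vv_symm (τ : ℝ) : vv (1 - τ) = vv τ := by
  unfold vv
  congr 3
  ring

theorem vv_spec {τ : ℝ} (h0 : 0 ≤ τ) (h1 : τ ≤ 1) :
    0 ≤ vv τ ∧ 7 * vv τ ^ 2 + 2 * vv τ = 2 * (τ * (1 - τ)) := by
  have hp : 0 ≤ τ * (1 - τ) := mul_nonneg h0 (by linarith)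
  have hD : (0 : ℝ) ≤ 1 + 14 * (τ * (1 - τ)) := by positivity
  have hsq := Real.sq_sqrt hD
  have hge : (1 : ℝ) ≤ √(1 + 14 * (τ * (1 - τ))) := Real.le_sqrt_of_sq_le (by linarith)
  unfold vv
  refine ⟨div_nonneg (by linarith) (by norm_num), ?_⟩
  linear_combination (1 / 7) * hsq

/-- position parameter of B on its segment -/
noncomputable def bb (τ : ℝ) : ℝ := τ + vv τ

theorem bb_mono {σ τ : ℝ} (h0 : 0 ≤ σ) (h : σ ≤ τ) (h1 : τ ≤ 1) : bb σ ≤ bb τ := by
  obtain ⟨p1, e1⟩ := vv_spec h0 (h.trans h1)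
  obtain ⟨p2, e2⟩ := vv_spec (h0.trans h) h1
  unfold bb
  by_contra hcon
  push Not at hcon
  have e : (vv σ - vv τ) * (7 * (vv σ + vv τ) + 2) = 2 * ((τ - σ) * (σ + τ - 1)) := by
    linear_combination e1 - e2
  have k1 : (τ - σ) * (σ + τ - 1) ≤ (τ - σ) * 1 :=
    mul_le_mul_of_nonneg_left (by linarith) (by linarith)
  have k2 : (vv σ - vv τ) * 2 ≤ (vv σ - vv τ) * (7 * (vv σ + vv τ) + 2) :=
    mul_le_mul_of_nonneg_left (by linarith) (by linarith)
  linarith

theorem bb_zero : bb 0 = 0 := by simp [bb, vv]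
theorem bb_one : bb 1 = 1 := by simp [bb, vv]

theorem bb_cont : Continuous bb := by
  unfold bb vv
  fun_prop

/-- the point with arc parameter s and segment parameter b -/
noncomputable def pt (s b : ℝ) : E3 :=
  !₂[cos s + sin s / 3 + (9 - 4 * √6) / 15 * b, cos s - sin s / 3 - √6 / 3 * b,
    4 / 3 * sin s + (18 + 2 * √6) / 15 * b]

/-- its image under the isometry exchanging the two diagonals -/
noncomputable def pt' (s b : ℝ) : E3 :=
  !₂[1 - (cos s + sin s / 3 + (9 - 4 * √6) / 15 * b), cos s - sin s / 3 - √6 / 3 * b,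
    2 - (4 / 3 * sin s + (18 + 2 * √6) / 15 * b)]

theorem dist_pt'_pt' (s b s' b' : ℝ) : dist (pt' s b) (pt' s' b') = dist (pt s b) (pt s' b') := by
  rw [pt', pt', pt, pt, dist3, dist3]
  congr 1
  ring

theorem dist_pt_arc (s s' b : ℝ) (h : s ≤ s') : dist (pt s' b) (pt s b) ≤ √2 * (s' - s) := by
  rw [pt, pt, dist3]
  apply Real.sqrt_le_iff.mpr
  refine ⟨by positivity, ?_⟩
  rw [mul_pow, Real.sq_sqrt (by norm_num)]
  have h1 := one_sub_sq_div_two_le_cos (x := s' - s)
  rw [cos_sub] at h1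
  nlinarith [sin_sq_add_cos_sq s, sin_sq_add_cos_sq s']

theorem dist_pt_seg (s b b' : ℝ) (h : b ≤ b') : dist (pt s b') (pt s b) ≤ √3 * (b' - b) := by
  rw [pt, pt, dist3]
  apply Real.sqrt_le_iff.mpr
  refine ⟨mul_nonneg (by positivity) (by linarith), le_of_eq ?_⟩
  rw [mul_pow, Real.sq_sqrt (by norm_num)]
  linear_combination ((b' - b) ^ 2 / 5) * s6

/-- the curve described by B -/
noncomputable def curveB (t : ℝ) : E3 := pt (al * cl (3 * t)) (bb (cl (3 * t - 1)))
/-- the curve described by A -/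
noncomputable def curveA (t : ℝ) : E3 := pt' (al * cl (3 * (1 - t))) (bb (cl (3 * (1 - t) - 1)))
/-- control function for the length -/
noncomputable def ctrl (t : ℝ) : ℝ := √2 * (al * cl (3 * t)) + √3 * bb (cl (3 * t - 1))

theorem distB (s t : ℝ) (h : s ≤ t) : dist (curveB t) (curveB s) ≤ ctrl t - ctrl s := by
  have h1 : al * cl (3 * s) ≤ al * cl (3 * t) :=
    mul_le_mul_of_nonneg_left (cl_mono (by linarith)) al_nonneg
  have h2 : bb (cl (3 * s - 1)) ≤ bb (cl (3 * t - 1)) :=
    bb_mono (cl_nonneg _) (cl_mono (by linarith)) (cl_le_one _)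
  have := dist_triangle (curveB t) (pt (al * cl (3 * s)) (bb (cl (3 * t - 1)))) (curveB s)
  have k1 := dist_pt_arc _ _ (bb (cl (3 * t - 1))) h1
  have k2 := dist_pt_seg (al * cl (3 * s)) _ _ h2
  unfold curveB ctrl at *
  linarith

theorem ctrl_total : ctrl 1 - ctrl 0 = √3 + √2 * al := by
  unfold ctrl
  rw [cl_of_ge (by norm_num), cl_of_ge (by norm_num), cl_of_le (by norm_num),
    cl_of_le (by norm_num), bb_zero, bb_one]
  ring

theorem pt_cont : Continuous fun p : ℝ × ℝ => pt p.1 p.2 := by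
  unfold pt
  refine (PiLp.continuous_toLp 2 _).comp (continuous_pi fun i => ?_)
  fin_cases i <;> simp <;> fun_prop

theorem pt'_cont : Continuous fun p : ℝ × ℝ => pt' p.1 p.2 := by
  unfold pt'
  refine (PiLp.continuous_toLp 2 _).comp (continuous_pi fun i => ?_)
  fin_cases i <;> simp <;> fun_prop

theorem isMotion : IsMotion curveA curveB := by
  have c1 := cl_cont
  have c2 := bb_cont
  refine ⟨?_, ?_, ?_, ?_, ?_, ?_, ?_⟩
  · exact (pt'_cont.comp (f := fun t : ℝ =>
      (al * cl (3 * (1 - t)), bb (cl (3 * (1 - t) - 1)))) (by fun_prop)).continuousOn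
  · exact (pt_cont.comp (f := fun t : ℝ =>
      (al * cl (3 * t), bb (cl (3 * t - 1)))) (by fun_prop)).continuousOn
  · intro t _
    unfold curveA curveB
    rw [pt, pt', dist3]
    congr 1
    rcases le_total t (1 / 3) with h | h
    · rw [cl_of_ge (x := 3 * (1 - t)) (by linarith), cl_of_ge (x := 3 * (1 - t) - 1) (by linarith),
        cl_of_le (x := 3 * t - 1) (by linarith), bb_zero, bb_one, mul_one, sin_al, cos_al]
      linear_combination 2 * sin_sq_add_cos_sq (al * cl (3 * t))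
    rcases le_total t (2 / 3) with h' | h'
    · rw [cl_of_ge (x := 3 * (1 - t)) (by linarith), cl_of_ge (x := 3 * t) (by linarith),
        cl_of_mem (x := 3 * (1 - t) - 1) (by linarith) (by linarith),
        cl_of_mem (x := 3 * t - 1) (by linarith) (by linarith), mul_one, sin_al, cos_al]
      have e : 3 * (1 - t) - 1 = 1 - (3 * t - 1) := by ring
      obtain ⟨-, hv⟩ := vv_spec (τ := 3 * t - 1) (by linarith) (by linarith)
      rw [e, bb, bb, vv_symm]
      generalize vv (3 * t - 1) = v at hv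
      generalize 3 * t - 1 = τ at hv
      have h6 := s6
      generalize √6 = w at h6
      grind
    · rw [cl_of_ge (x := 3 * t) (by linarith), cl_of_ge (x := 3 * t - 1) (by linarith),
        cl_of_le (x := 3 * (1 - t) - 1) (by linarith), bb_zero, bb_one, mul_one, sin_al, cos_al]
      linear_combination 2 * sin_sq_add_cos_sq (al * cl (3 * (1 - t)))
  · unfold curveA
    rw [cl_of_ge (by norm_num), cl_of_ge (by norm_num), bb_one, mul_one, pt', sin_al, cos_al, A1]
    ext i
    fin_cases i <;> simp <;> ring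
  · unfold curveB
    rw [cl_of_le (by norm_num), cl_of_le (by norm_num), bb_zero, mul_zero, pt, B1]
    norm_num
  · unfold curveA
    rw [cl_of_le (by norm_num), cl_of_le (by norm_num), bb_zero, mul_zero, pt', A2]
    norm_num
  · unfold curveB
    rw [cl_of_ge (by norm_num), cl_of_ge (by norm_num), bb_one, mul_one, pt, sin_al, cos_al, B2]
    ext i
    fin_cases i <;> simp <;> ring

theorem cost_le : cost curveA curveB ≤ ENNReal.ofReal (2 * √3 + 2 * √2 * al) := by
  have hB := eVar_le curveB ctrl distB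
  have hA := eVar_le curveA (fun t => -ctrl (1 - t)) (fun s t h => by
    have := distB (1 - t) (1 - s) (by linarith)
    unfold curveA
    unfold curveB at this
    rw [dist_pt'_pt', dist_comm]
    linarith)
  have e : -ctrl (1 - 1) - -ctrl (1 - 0) = ctrl 1 - ctrl 0 := by
    rw [sub_self, sub_zero]; ring
  simp only [e] at hA
  rw [ctrl_total] at hA hB
  have h0 : 0 ≤ √3 + √2 * al := by have := al_nonneg; positivity
  refine (add_le_add hA hB).trans (le_of_eq ?_)
  rw [← ENNReal.ofReal_add h0 h0]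
  congr 1
  ring

end Pool.Agent.Lib.MP_9fae52_an.Best
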