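import Pool.Agent.Lib.MP_9fae52_an.Upper

/-!
A calibration for curves on the sphere of radius √2.
-/

namespace Pool.Agent.Lib.MP_9fae52_an

open Set Real

/-- Increments of `F` dominate the increments of the curve in every direction of a lens. -/
def Ctl (m k : ℝ) (x y z F : ℝ → ℝ) (T : ℝ) : Prop :=
  ∀ s t, 0 ≤ s → s ≤ t → t ≤ T → ∀ p q h : ℝ, p ^ 2 + q ^ 2 + h ^ 2 + 2 * (p * m + h * k) ≤ 2 / 9 →
    p ^ 2 + q ^ 2 + h ^ 2 - 2 * (p * m + h * k) ≤ 2 / 9 →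
      p * (x t - x s) + q * (y t - y s) + h * (z t - z s) ≤ F t - F s

theorem sin_tangent {a b : ℝ} (ha : a ∈ Icc 0 π) (hb : b ∈ Icc 0 π) :
    sin b ≤ sin a + cos a * (b - a) := by
  have hc := strictConcaveOn_sin_Icc.concaveOn
  rcases lt_trichotomy a b with h | rfl | h
  · have := hc.slope_le_of_hasDerivAt ha hb h (hasDerivAt_sin a)
    rw [slope_def_field, div_le_iff₀ (by linarith)] at this
    linarith
  · simp
  · have := hc.le_slope_of_hasDerivAt hb ha h (hasDerivAt_sin a)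
    rw [slope_def_field, le_div_iff₀ (by linarith)] at this
    linarith

theorem chain {H : ℝ → ℝ} {T d : ℝ} (hT : 0 ≤ T) (hd : 0 < d)
    (h : ∀ s t, 0 ≤ s → s ≤ t → t ≤ T → t - s ≤ d → H s ≤ H t) : H 0 ≤ H T := by
  have key : ∀ n : ℕ, ∀ t, 0 ≤ t → t ≤ T → t ≤ n * d → H 0 ≤ H t := by
    intro n
    induction n with
    | zero => intro t h0 _ h1; rw [le_antisymm (by simpa using h1) h0]
    | succ n ih =>
      intro t h0 h1 h2
      rcases le_total t (n * d) with h3 | h3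
      · exact ih t h0 h1 h3
      · push_cast at h2
        exact (ih _ (by positivity) (h3.trans h1) le_rfl).trans
          (h _ _ (by positivity) h3 h1 (by linarith))
  obtain ⟨n, hn⟩ := exists_nat_ge (T / d)
  exact key n T hT le_rfl ((div_le_iff₀ hd).1 hn)

theorem local_step {m k r x y z x' y' z' a a' : ℝ} (hs : m ^ 2 + k ^ 2 = 7 / 9)
    (hr : r ^ 2 = 2 / 9) (h : x ^ 2 + y ^ 2 + z ^ 2 = 2) (h' : x' ^ 2 + y' ^ 2 + z' ^ 2 = 2)
    (ha : a = r * y - (m * x + k * z)) (ha' : a' = r * y' - (m * x' + k * z'))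
    (h0 : 0 ≤ a) (h1 : a ≤ 1.1) (h0' : 0 ≤ a') (h1' : a' ≤ 1.1)
    (hz : -(7 / 18) * a ≤ m * x + k * z) :
    ∃ p q u : ℝ, p ^ 2 + q ^ 2 + u ^ 2 + 2 * (p * m + u * k) ≤ 2 / 9 ∧
      p ^ 2 + q ^ 2 + u ^ 2 - 2 * (p * m + u * k) ≤ 2 / 9 ∧
      √2 * arcsin (a / √2) + (m * x + k * z) - (√2 * arcsin (a' / √2) + (m * x' + k * z')) ≤
        p * (x' - x) + q * (y' - y) + u * (z' - z)
          + ((x' - x) ^ 2 + (y' - y) ^ 2 + (z' - z) ^ 2) / 2 := by
  have s2 : √2 ^ 2 = 2 := sq_sqrt (by norm_num)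
  have s1 : 1.4 ≤ √2 := le_sqrt_of_sq_le (by norm_num)
  have s0 : 0 < √2 := by linarith
  have hb : ∀ {b : ℝ}, 0 ≤ b → b ≤ 1.1 → arcsin (b / √2) ∈ Icc 0 π ∧
      √2 * sin (arcsin (b / √2)) = b := fun {b} p q => by
    have e : 0 ≤ b / √2 := by positivity
    refine ⟨⟨arcsin_nonneg.2 e, (arcsin_le_pi_div_two _).trans (by linarith [pi_pos])⟩, ?_⟩
    rw [sin_arcsin (by linarith) ((div_le_one s0).2 (by linarith)), mul_div_cancel₀ _ s0.ne']
  obtain ⟨t1, e1⟩ := hb h0 h1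
  obtain ⟨t2, e2⟩ := hb h0' h1'
  have hc0 := cos_arcsin_nonneg (a / √2)
  have ht := sin_tangent t1 t2
  have hsc := sin_sq_add_cos_sq (arcsin (a / √2))
  generalize arcsin (a / √2) = θ at *
  generalize arcsin (a' / √2) = θ' at *
  generalize cos θ = c at *
  have hc : c ^ 2 = 1 - a ^ 2 / 2 := by
    rw [← e1, mul_pow, s2]
    linarith
  have hc1 : 0.6 ≤ c := by nlinarith
  have hc2 : c ≤ 1 - a ^ 2 / 4 := by nlinarith [sq_nonneg (a ^ 2)]
  obtain ⟨i, hi0, hi⟩ : ∃ i : ℝ, 0 < i ∧ c * i = 1 :=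
    ⟨c⁻¹, inv_pos.2 (by linarith), mul_inv_cancel₀ (by linarith)⟩
  have hia : i * a ≤ 2 := by nlinarith
  have hu : ((m + a * x / 2) * i) ^ 2 + ((a * y / 2 - r) * i) ^ 2 + ((k + a * z / 2) * i) ^ 2 = 1 := by
    linear_combination (i ^ 2) * hs + i ^ 2 * hr + (a ^ 2 * i ^ 2 / 4) * h + (a * i ^ 2) * ha
      - i ^ 2 * hc + (c * i + 1) * hi
  have hm : 7 / 9 ≤ (m + a * x / 2) * i * m + (k + a * z / 2) * i * k := by
    have e : (m + a * x / 2) * i * m + (k + a * z / 2) * i * k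
        = i * (7 / 9 + a * (m * x + k * z) / 2) := by linear_combination i * hs
    have e' : 7 / 9 * c ≤ 7 / 9 + a * (m * x + k * z) / 2 := by
      nlinarith [mul_le_mul_of_nonneg_left hz h0]
    rw [e]
    nlinarith [mul_le_mul_of_nonneg_left e' hi0.le]
  refine ⟨(m + a * x / 2) * i - m, (a * y / 2 - r) * i, (k + a * z / 2) * i - k,
    le_of_eq (by linear_combination hu - hs), by nlinarith, ?_⟩
  have e3 : √2 * θ - √2 * θ' ≤ i * (a - a') := by
    have := mul_le_mul_of_nonneg_left ht (mul_pos hi0 s0).le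
    have e : i * √2 * (c * (θ' - θ)) = √2 * θ' - √2 * θ := by linear_combination (√2 * (θ' - θ)) * hi
    rw [mul_add, e, mul_assoc, mul_assoc, e1, e2] at this
    linarith
  have e4 : (m + a * x / 2) * i * (x' - x) + (a * y / 2 - r) * i * (y' - y)
      + (k + a * z / 2) * i * (z' - z) = i * (a - a')
        - i * a * (((x' - x) ^ 2 + (y' - y) ^ 2 + (z' - z) ^ 2) / 4) := by
    linear_combination (-i) * ha + i * ha' + (i * a / 4) * h' - (i * a / 4) * h
  have e5 := mul_le_mul_of_nonneg_right hia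
    (by positivity : 0 ≤ ((x' - x) ^ 2 + (y' - y) ^ 2 + (z' - z) ^ 2) / 4)
  linarith

theorem good_part {m k r T : ℝ} {x y z F : ℝ → ℝ} (hs : m ^ 2 + k ^ 2 = 7 / 9)
    (hr : r ^ 2 = 2 / 9) (hm : |m| ≤ 0.04) (hk : |k| ≤ 0.89) (hT : 0 ≤ T)
    (hc : ContinuousOn (fun t => (x t, y t, z t)) (Icc 0 T))
    (h : ∀ t ∈ Icc 0 T, x t ^ 2 + y t ^ 2 + z t ^ 2 = 2) (hF : Ctl m k x y z F T) {a : ℝ → ℝ}
    (ha : ∀ t, a t = r * y t - (m * x t + k * z t))
    (hU : ∀ t ∈ Icc 0 T, 0 ≤ a t ∧ a t ≤ 1.1 ∧ -(7 / 18) * a t ≤ m * x t + k * z t) :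
    √2 * arcsin (a 0 / √2) + (m * x 0 + k * z 0) - (√2 * arcsin (a T / √2) + (m * x T + k * z T))
      ≤ F T - F 0 := by
  have hF0 : 0 ≤ F T - F 0 := by simpa using hF 0 T le_rfl hT le_rfl 0 0 0 (by norm_num) (by norm_num)
  refine le_of_forall_pos_le_add fun ε hε => ?_
  obtain ⟨η, hη0, hη⟩ : ∃ η : ℝ, 0 < η ∧ 10 * η * (F T - F 0) ≤ ε := by
    refine ⟨ε / (10 * (F T - F 0 + 1)), by positivity, ?_⟩
    rw [mul_div_assoc', div_mul_eq_mul_div, div_le_iff₀ (by positivity)]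
    nlinarith
  obtain ⟨d, hd, hu⟩ := Metric.uniformContinuousOn_iff_le.1
    (isCompact_Icc.uniformContinuousOn_of_continuous hc) η hη0
  have key := chain (H := fun t => (1 + 10 * η) * F t
    + (√2 * arcsin (a t / √2) + (m * x t + k * z t))) hT hd fun s t h0 h1 h2 h3 => by
      have ms : s ∈ Icc 0 T := ⟨h0, h1.trans h2⟩
      have mt : t ∈ Icc 0 T := ⟨h0.trans h1, h2⟩
      obtain ⟨p, q, u, p1, p2, p3⟩ := local_step hs hr (h s ms) (h t mt) (ha s) (ha t) (hU s ms).1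
        (hU s ms).2.1 (hU t mt).1 (hU t mt).2.1 (hU s ms).2.2
      have q1 := hF s t h0 h1 h2 p q u p1 p2
      have q2 := hu t mt s ms (by rw [Real.dist_eq, abs_of_nonneg (by linarith)]; exact h3)
      simp only [Prod.dist_eq, Real.dist_eq, sup_le_iff] at q2
      have q3 : ∀ {w : ℝ}, |w| ≤ η → |w / (20 * η)| ≤ 1 / 20 := fun {w} hw => by
        rw [abs_div, abs_of_pos (by positivity : 0 < 20 * η), div_le_iff₀ (by positivity)]
        linarith
      have q4 : ∀ {p q u : ℝ}, |p| ≤ 1 / 20 → |q| ≤ 1 / 20 → |u| ≤ 1 / 20 →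
          p ^ 2 + q ^ 2 + u ^ 2 + 2 * (p * m + u * k) ≤ 2 / 9 := fun {p q u} a1 a2 a3 => by
        have b1 := pow_le_pow_left₀ (abs_nonneg p) a1 2
        have b2 := pow_le_pow_left₀ (abs_nonneg q) a2 2
        have b3 := pow_le_pow_left₀ (abs_nonneg u) a3 2
        rw [sq_abs] at b1 b2 b3
        have b4 := (le_abs_self _).trans ((abs_mul p m).trans_le
          (mul_le_mul a1 hm (abs_nonneg _) (by norm_num)))
        have b5 := (le_abs_self _).trans ((abs_mul u k).trans_le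
          (mul_le_mul a3 hk (abs_nonneg _) (by norm_num)))
        linarith
      have q5 := hF s t h0 h1 h2 _ _ _ (q4 (q3 q2.1) (q3 q2.2.1) (q3 q2.2.2)) (by
        have := q4 ((abs_neg _).trans_le (q3 q2.1)) (q3 q2.2.1) ((abs_neg _).trans_le (q3 q2.2.2))
        linarith)
      have q6 : (x t - x s) ^ 2 + (y t - y s) ^ 2 + (z t - z s) ^ 2 ≤ 20 * η * (F t - F s) := by
        rw [← div_le_iff₀' (by positivity)]
        refine le_trans (le_of_eq ?_) q5
        ring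
      linarith
  linarith

theorem half {m k r T : ℝ} {x y z F : ℝ → ℝ} (hs : m ^ 2 + k ^ 2 = 7 / 9) (hr : r ^ 2 = 2 / 9)
    (hm1 : -0.0308 ≤ m) (hm2 : m ≤ -0.0307) (hk1 : 0.8813 ≤ k) (hk2 : k ≤ 0.8815)
    (hr1 : 0.4714 ≤ r) (hG : √2 * arcsin ((r - m) / √2) + m ≤ 0.4828) (hT : 0 ≤ T)
    (hx : ContinuousOn x (Icc 0 T)) (hy : ContinuousOn y (Icc 0 T)) (hz : ContinuousOn z (Icc 0 T))
    (h : ∀ t ∈ Icc 0 T, x t ^ 2 + y t ^ 2 + z t ^ 2 = 2) (hF : Ctl m k x y z F T)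
    (x0 : x 0 = 1) (y0 : y 0 = 1) (z0 : z 0 = 0) (yT : y T = 0) (zT : 0 ≤ z T) :
    √2 * arcsin ((r - m) / √2) + m ≤ F T - F 0 := by
  by_contra hcon
  have hV : F T - F 0 < 0.4828 := (not_le.1 hcon).trans_le hG
  have hr2 : r ≤ 0.4715 := by nlinarith
  have apr : ∀ t ∈ Icc 0 T, -0.0121 ≤ y t ∧ y t ≤ 1.0121 ∧ 0.6 ≤ x t ∧
      x t ≤ 1.354 - 0.297 * y t := by
    intro t ht
    have a1 := hF 0 t le_rfl ht.1 ht.2 0 (-0.4714) 0 (by norm_num) (by norm_num)
    have a2 := hF 0 t le_rfl ht.1 ht.2 0 0.4714 0 (by norm_num) (by norm_num)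
    have a3 := hF 0 t le_rfl ht.1 ht.2 0.2 (-0.412) 0 (by linarith) (by linarith)
    have a4 := hF 0 t le_rfl ht.1 ht.2 (-0.2) (-0.412) 0 (by linarith) (by linarith)
    have b1 := hF t T ht.1 ht.2 le_rfl 0 (-0.4714) 0 (by norm_num) (by norm_num)
    have b2 := hF t T ht.1 ht.2 le_rfl 0 0.4714 0 (by norm_num) (by norm_num)
    rw [y0] at a1 a2 a3 a4
    rw [x0] at a3 a4
    rw [yT] at b1 b2
    refine ⟨by linarith, by linarith, by linarith, by linarith⟩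
  obtain ⟨a, ha⟩ : ∃ a : ℝ → ℝ, ∀ t, a t = r * y t - (m * x t + k * z t) := ⟨_, fun _ => rfl⟩
  have hac : ContinuousOn a (Icc 0 T) := by
    rw [funext ha]
    exact (continuousOn_const.mul hy).sub ((continuousOn_const.mul hx).add
      (continuousOn_const.mul hz))
  have hU : ∀ t ∈ Icc 0 T, -(7 / 18) * a t ≤ m * x t + k * z t := by
    intro w hw
    by_contra hb
    rw [ha, not_le] at hb
    obtain ⟨c1, c2, c3, c4⟩ := apr w hw
    have c5 := h w hw
    have c6 : -0.0308 * x w ≤ m * x w := mul_le_mul_of_nonneg_right hm1 (by linarith)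
    have c7 : z w ≤ -0.2 := by
      by_contra c7
      rw [not_le] at c7
      have d1 : -0.006 ≤ r * y w := by nlinarith
      have d2 : z w ≤ 0.2 := by nlinarith
      have d3 : z w ^ 2 ≤ 0.04 := by nlinarith
      have d4 : x w ^ 2 ≤ (1.354 - 0.297 * y w) ^ 2 := pow_le_pow_left₀ (by linarith) c4 2
      have d5 : 0.85 ≤ y w := by
        by_contra d5
        nlinarith [mul_nonneg (sub_nonneg.2 c1) (sub_nonneg.2 (not_le.1 d5).le)]
      have d6 : 0.4 ≤ r * y w := by nlinarith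
      have d7 : -0.18 ≤ k * z w := by nlinarith
      linarith
    obtain ⟨v, hv, hv0⟩ := intermediate_value_Icc hw.2 (hz.mono (Icc_subset_Icc_left hw.1))
      (show (0 : ℝ) ∈ Icc (z w) (z T) from ⟨by linarith, zT⟩)
    have mv : v ∈ Icc 0 T := ⟨hw.1.trans hv.1, hv.2⟩
    obtain ⟨e1, e2, e3, e4⟩ := apr v mv
    have e5 := h v mv
    rw [hv0] at e5
    have d4 : x v ^ 2 ≤ (1.354 - 0.297 * y v) ^ 2 := pow_le_pow_left₀ (by linarith) e4 2
    have d5 : 0.85 ≤ y v := by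
      by_contra d5
      nlinarith [mul_nonneg (sub_nonneg.2 e1) (sub_nonneg.2 (not_le.1 d5).le)]
    have d6 : 1.97 ≤ x v + y v := by
      by_contra d6
      have := pow_le_pow_left₀ (by linarith : 0 ≤ x v) (by linarith : x v ≤ 1.97 - y v) 2
      nlinarith [mul_nonneg (sub_nonneg.2 d5) (sub_nonneg.2 e2)]
    have l1 := hF 0 w le_rfl hw.1 hw.2 0.23 (-0.2414) (-0.05) (by linarith) (by linarith)
    have l2 := hF w v hw.1 hv.1 hv.2 0.23 (-0.2414) 0.05 (by linarith) (by linarith)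
    have l3 := hF v T mv.1 mv.2 le_rfl 0 (-0.4714) 0 (by norm_num) (by norm_num)
    rw [x0, y0, z0] at l1
    rw [hv0] at l2
    rw [yT] at l3
    linarith
  have a0 : a 0 = r - m := by rw [ha, x0, y0, z0]; ring
  have aT : a T ≤ 0 := by
    obtain ⟨c1, c2, c3, c4⟩ := apr T ⟨hT, le_rfl⟩
    have c5 := h T ⟨hT, le_rfl⟩
    rw [yT] at c4 c5
    have c6 : -0.0308 * x T ≤ m * x T := mul_le_mul_of_nonneg_right hm1 (by linarith)
    have c7 : 0.4 ≤ z T := by nlinarith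
    rw [ha, yT]
    nlinarith
  obtain ⟨S, ⟨hS, hS0⟩, hmin⟩ := (isCompact_Icc.of_isClosed_subset
    (hac.preimage_isClosed_of_isClosed isClosed_Icc isClosed_Iic) inter_subset_left).exists_isLeast
      ⟨T, ⟨hT, le_rfl⟩, aT⟩
  have sub : Icc 0 S ⊆ Icc 0 T := Icc_subset_Icc_right hS.2
  obtain ⟨S', hS', aS⟩ := intermediate_value_Icc' hS.1 (hac.mono sub)
    (show (0 : ℝ) ∈ Icc (a S) (a 0) from ⟨hS0, by rw [a0]; linarith⟩)
  obtain rfl : S = S' := le_antisymm (hmin ⟨sub hS', aS.le⟩) hS'.2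
  have g := good_part hs hr (abs_le.2 ⟨by linarith, by linarith⟩) (abs_le.2 ⟨by linarith, by linarith⟩)
    hS.1 ((hx.prodMk (hy.prodMk hz)).mono sub) (fun t ht => h t (sub ht))
    (fun s t p1 p2 p3 => hF s t p1 p2 (p3.trans hS.2)) ha fun t ht => by
      have c0 := hU t (sub ht)
      obtain ⟨c1, c2, c3, c4⟩ := apr t (sub ht)
      have c5 : r * y t ≤ 0.48 := by nlinarith
      refine ⟨?_, by linarith [ha t], c0⟩
      by_contra c6
      have c7 : t = S := le_antisymm ht.2 (hmin ⟨sub ht, (not_le.1 c6).le⟩)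
      rw [c7, aS] at c6
      exact c6 le_rfl
  have l := hF S T hS.1 hS.2 le_rfl 0 (-r) 0 (by nlinarith) (by nlinarith)
  rw [a0, aS, x0, z0, zero_div, arcsin_zero] at g
  rw [yT] at l
  have := ha S
  rw [aS] at this
  exact hcon (by linarith)

end Pool.Agent.Lib.MP_9fae52_an
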