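import Mathlib

/-!
Definitions for MP_9fae52_an: motions of a segment of length √2 between two diagonals of the
prism, their cost, and the three-stage motions M_θ.
-/

namespace Pool.Agent.Lib.MP_9fae52_an

open Set

/-- Euclidean three-space. -/
abbrev E3 : Type := EuclideanSpace ℝ (Fin 3)

/-- `A₁ = (0,0,0)`. -/
noncomputable def A1 : E3 := !₂[0, 0, 0]
/-- `B₁ = (1,1,0)`. -/
noncomputable def B1 : E3 := !₂[1, 1, 0]
/-- `A₂ = (0,1,2)`. -/
noncomputable def A2 : E3 := !₂[0, 1, 2]
/-- `B₂ = (1,0,2)`. -/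
noncomputable def B2 : E3 := !₂[1, 0, 2]

/-- A motion: two continuous curves on `[0,1]` at constant distance `√2` with the prescribed
initial and final positions. -/
def IsMotion (A B : ℝ → E3) : Prop :=
  ContinuousOn A (Icc 0 1) ∧ ContinuousOn B (Icc 0 1) ∧
    (∀ t ∈ Icc (0 : ℝ) 1, dist (A t) (B t) = √2) ∧
    A 0 = A1 ∧ B 0 = B1 ∧ A 1 = A2 ∧ B 1 = B2

/-- The cost of a motion: the sum of the arc lengths (total variations) of the two curves. -/
noncomputable def cost (A B : ℝ → E3) : ENNReal :=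
  eVariationOn A (Icc 0 1) + eVariationOn B (Icc 0 1)

/-- `I`: the infimum of the cost over all motions. -/
noncomputable def infCost : ENNReal :=
  ⨅ (A : ℝ → E3) (B : ℝ → E3) (_ : IsMotion A B), cost A B

/-- `C₁(θ) = (1, cos θ, sin θ)`. -/
noncomputable def C1 (θ : ℝ) : E3 := !₂[1, Real.cos θ, Real.sin θ]
/-- `C₂(θ) = (0, cos θ, 2 - sin θ)`. -/
noncomputable def C2 (θ : ℝ) : E3 := !₂[0, Real.cos θ, 2 - Real.sin θ]

/-- `θ` is admissible: stage 2 can be carried out, that is, `A` runs monotonically and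
continuously along the segment from `A₁` to `C₂(θ)` while `B` does so along the segment from
`C₁(θ)` to `B₂`, the distance staying `√2`. -/
def Admissible (θ : ℝ) : Prop :=
  ∃ a b : ℝ → ℝ, ContinuousOn a (Icc 0 1) ∧ ContinuousOn b (Icc 0 1) ∧
    MonotoneOn a (Icc 0 1) ∧ MonotoneOn b (Icc 0 1) ∧
    a 0 = 0 ∧ a 1 = 1 ∧ b 0 = 0 ∧ b 1 = 1 ∧
    ∀ t ∈ Icc (0 : ℝ) 1,
      dist (AffineMap.lineMap A1 (C2 θ) (a t)) (AffineMap.lineMap (C1 θ) B2 (b t)) = √2

/-- The cost of `M_θ`: the shorter great-circle arc of radius `√2` about `A₁` from `B₁` to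
`C₁(θ)`, the two segments of stage 2, and the shorter great-circle arc of radius `√2` about `B₂`
from `C₂(θ)` to `A₂`. An arc of radius `r` and central angle `φ` has length `r φ`. -/
noncomputable def costM (θ : ℝ) : ℝ :=
  √2 * EuclideanGeometry.angle B1 A1 (C1 θ) + dist (C1 θ) B2 + dist A1 (C2 θ) +
    √2 * EuclideanGeometry.angle (C2 θ) B2 A2

/-- `m*`: the infimum of the cost of `M_θ` over admissible `θ`. -/
noncomputable def mStar : ℝ := sInf (costM '' {θ | Admissible θ})

end Pool.Agent.Lib.MP_9fae52_an
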