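import Pool.Agent.Lib.MP_9fae52_an.Calib
import Pool.Agent.Lib.MP_9fae52_an.Best

/-!
The lower bound for the cost of a motion.
-/

namespace Pool.Agent.Lib.MP_9fae52_an

open Set Real

theorem full {m k r T : ℝ} {x y z F : ℝ → ℝ} (hs : m ^ 2 + k ^ 2 = 7 / 9) (hr : r ^ 2 = 2 / 9)
    (hm1 : -0.0308 ≤ m) (hm2 : m ≤ -0.0307) (hk1 : 0.8813 ≤ k) (hk2 : k ≤ 0.8815)
    (hr1 : 0.4714 ≤ r) (hG : √2 * arcsin ((r - m) / √2) + m ≤ 0.4828) (hT : T ∈ Icc (0 : ℝ) 1)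
    (hx : ContinuousOn x (Icc 0 1)) (hy : ContinuousOn y (Icc 0 1)) (hz : ContinuousOn z (Icc 0 1))
    (h : ∀ t ∈ Icc (0 : ℝ) 1, x t ^ 2 + y t ^ 2 + z t ^ 2 = 2) (hF : Ctl m k x y z F 1)
    (x0 : x 0 = 1) (y0 : y 0 = 1) (z0 : z 0 = 0) (x1 : x 1 = 1) (y1 : y 1 = -1) (z1 : z 1 = 0)
    (yT : y T = 0) (zT : 0 ≤ z T) :
    2 * (√2 * arcsin ((r - m) / √2) + m) ≤ F 1 - F 0 := by
  have sub : Icc 0 T ⊆ Icc (0 : ℝ) 1 := Icc_subset_Icc_right hT.2
  have h1 := half hs hr hm1 hm2 hk1 hk2 hr1 hG hT.1 (hx.mono sub) (hy.mono sub) (hz.mono sub)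
    (fun t ht => h t (sub ht)) (fun s t p1 p2 p3 => hF s t p1 p2 (p3.trans hT.2)) x0 y0 z0 yT zT
  have mp : MapsTo (fun t : ℝ => 1 - t) (Icc 0 (1 - T)) (Icc 0 1) := fun t ht =>
    ⟨by linarith [ht.2, hT.1], by linarith [ht.1]⟩
  have cs : ContinuousOn (fun t : ℝ => 1 - t) (Icc 0 (1 - T)) := by fun_prop
  have h2 := half (x := fun t => x (1 - t)) (y := fun t => -y (1 - t)) (z := fun t => z (1 - t))
    (F := fun t => -F (1 - t)) (T := 1 - T) hs hr hm1 hm2 hk1 hk2 hr1 hG (by linarith [hT.2])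
    (hx.comp cs mp) (hy.comp cs mp).neg (hz.comp cs mp)
    (fun t ht => by simpa using h _ (mp ht))
    (fun s t p1 p2 p3 p q u a1 a2 => by
      have := hF (1 - t) (1 - s) (by linarith [hT.1]) (by linarith) (by linarith) (-p) q (-u)
        (by linarith) (by linarith)
      linarith)
    (by simpa using x1) (by simp [y1]) (by simpa using z1) (by simpa using yT) (by simpa using zT)
  simp only [sub_sub_cancel, sub_zero] at h2
  linarith

theorem dot_le {A : ℝ → E3} (hA : eVariationOn A (Icc 0 1) ≠ ⊤) {s t : ℝ} (h0 : 0 ≤ s) (h : s ≤ t)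
    (h1 : t ≤ 1) {p q u : ℝ} (hp : p ^ 2 + q ^ 2 + u ^ 2 ≤ 1) :
    p * (A t 0 - A s 0) + q * (A t 1 - A s 1) + u * (A t 2 - A s 2) ≤
      variationOnFromTo A (Icc 0 1) 0 t - variationOnFromTo A (Icc 0 1) 0 s := by
  have hB : BoundedVariationOn A (Icc 0 1) := hA
  have ms : s ∈ Icc (0 : ℝ) 1 := ⟨h0, h.trans h1⟩
  have mt : t ∈ Icc (0 : ℝ) 1 := ⟨h0.trans h, h1⟩
  have e := variationOnFromTo.add hB.locallyBoundedVariationOn (left_mem_Icc.2 zero_le_one) ms mt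
  have d := (hB.mono (inter_subset_left (t := Icc s t))).dist_le ⟨mt, h, le_rfl⟩ ⟨ms, le_rfl, h⟩
  rw [← variationOnFromTo.eq_of_le A _ h, EuclideanSpace.dist_eq, Fin.sum_univ_three] at d
  simp only [Real.dist_eq, sq_abs] at d
  refine (le_sqrt_of_sq_le ?_).trans (d.trans (by linarith))
  generalize A t 0 - A s 0 = a
  generalize A t 1 - A s 1 = b
  generalize A t 2 - A s 2 = c
  nlinarith [sq_nonneg (p * b - q * a), sq_nonneg (p * c - u * a), sq_nonneg (q * c - u * b),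
    mul_le_mul_of_nonneg_right hp (by positivity : 0 ≤ a ^ 2 + b ^ 2 + c ^ 2)]

theorem le_infCost : ENNReal.ofReal (2 * √3 + 2 * √2 * Best.al) ≤ infCost := by
  refine le_iInf fun A => le_iInf fun B => le_iInf fun ⟨cA, cB, hd, a0, b0, a1, b1⟩ => ?_
  unfold cost
  by_cases hA : eVariationOn A (Icc 0 1) = ⊤
  · simp [hA]
  by_cases hB : eVariationOn B (Icc 0 1) = ⊤
  · simp [hB]
  have s2 : √2 ^ 2 = 2 := sq_sqrt (by norm_num)
  have s3 : √3 ^ 2 = 3 := sq_sqrt (by norm_num)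
  have s23 : √6 = √2 * √3 := by rw [← sqrt_mul (by norm_num)]; norm_num
  have l2 : 1.41421 ≤ √2 := le_sqrt_of_sq_le (by norm_num)
  have u2 : √2 ≤ 1.41422 := sqrt_le_iff.2 ⟨by norm_num, by norm_num⟩
  have l3 : 1.73205 ≤ √3 := le_sqrt_of_sq_le (by norm_num)
  have u3 : √3 ≤ 1.73206 := sqrt_le_iff.2 ⟨by norm_num, by norm_num⟩
  obtain ⟨m, hm⟩ : ∃ m, m = (3 * √3 - 4 * √2) / 15 := ⟨_, rfl⟩
  obtain ⟨k, hk⟩ : ∃ k, k = (6 * √3 + 2 * √2) / 15 := ⟨_, rfl⟩
  have hs : m ^ 2 + k ^ 2 = 7 / 9 := by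
    rw [hm, hk]; linear_combination (1 / 5) * s3 + (4 / 45) * s2
  have hal : arcsin ((√2 / 3 - m) / √2) = Best.al := by
    rw [Best.al, s23, hm]
    congr 1
    rw [div_eq_iff (by linarith)]
    linear_combination (√3 / 10) * s2
  have cc : ∀ i, ContinuousOn (fun t => B t i - A t i) (Icc 0 1) := fun i =>
    ((EuclideanSpace.proj i).continuous.comp_continuousOn cB).sub
      ((EuclideanSpace.proj i).continuous.comp_continuousOn cA)
  have e0 : A 0 0 = 0 ∧ A 0 1 = 0 ∧ A 0 2 = 0 := by rw [a0, A1]; simp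
  have e1 : B 0 0 = 1 ∧ B 0 1 = 1 ∧ B 0 2 = 0 := by rw [b0, B1]; simp
  have e2 : A 1 0 = 0 ∧ A 1 1 = 1 ∧ A 1 2 = 2 := by rw [a1, A2]; simp
  have e3 : B 1 0 = 1 ∧ B 1 1 = 0 ∧ B 1 2 = 2 := by rw [b1, B2]; simp
  obtain ⟨T, hT, yT⟩ := intermediate_value_Icc' zero_le_one (cc 1)
    (show (0 : ℝ) ∈ Icc (B 1 1 - A 1 1) (B 0 1 - A 0 1) from
      ⟨by rw [e2.2.1, e3.2.1]; norm_num, by rw [e0.2.1, e1.2.1]; norm_num⟩)
  obtain ⟨ε, hε, zT⟩ : ∃ ε : ℝ, (ε = 1 ∨ ε = -1) ∧ 0 ≤ ε * (B T 2 - A T 2) := by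
    rcases le_total 0 (B T 2 - A T 2) with h | h
    exacts [⟨1, Or.inl rfl, by linarith⟩, ⟨-1, Or.inr rfl, by linarith⟩]
  have key := full (m := m) (k := k) (r := √2 / 3) (x := fun t => B t 0 - A t 0)
    (y := fun t => B t 1 - A t 1) (z := fun t => ε * (B t 2 - A t 2))
    (F := fun t => variationOnFromTo A (Icc 0 1) 0 t + variationOnFromTo B (Icc 0 1) 0 t
      - (ε * m * (A t 0 + B t 0) + k * (A t 2 + B t 2))) hs (by linear_combination (1 / 9) * s2)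
    (by linarith) (by linarith) (by linarith) (by linarith) (by linarith)
    (by
      rw [hal]
      have := mul_le_mul u2 Best.al_le Best.al_nonneg (by norm_num)
      linarith) hT (cc 0) (cc 1) (continuousOn_const.mul (cc 2))
    (fun t ht => by
      have h := hd t ht
      rw [EuclideanSpace.dist_eq, Fin.sum_univ_three, sqrt_inj (by positivity) (by norm_num)] at h
      simp only [Real.dist_eq, sq_abs] at h
      rcases hε with rfl | rfl <;> linarith)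
    (fun s t p1 p2 p3 p q u a1 a2 => by
      have d1 := dot_le hA p1 p2 p3 (p := ε * m - p) (q := -q) (u := k - ε * u)
        (by rcases hε with rfl | rfl <;> linarith)
      have d2 := dot_le hB p1 p2 p3 (p := ε * m + p) (q := q) (u := k + ε * u)
        (by rcases hε with rfl | rfl <;> linarith)
      linarith)
    (by simp [e0, e1]) (by simp [e0, e1]) (by simp [e0, e1]) (by simp [e2, e3]) (by simp [e2, e3])
    (by simp [e2, e3]) yT zT
  simp only [hal, e0, e1, e2, e3, variationOnFromTo.self, variationOnFromTo.eq_of_le _ _ zero_le_one,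
    inter_self] at key
  rw [← ENNReal.ofReal_toReal hA, ← ENNReal.ofReal_toReal hB,
    ← ENNReal.ofReal_add ENNReal.toReal_nonneg ENNReal.toReal_nonneg]
  exact ENNReal.ofReal_le_ofReal (by linarith)

end Pool.Agent.Lib.MP_9fae52_an
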