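import Pool.Agent.Lib.MP_9fae52_an.Defs

namespace Pool.Agent.Lib.MP_9fae52_an

open Set Real

theorem dist3 (a b c d e f : ℝ) :
    dist (!₂[a, b, c] : E3) !₂[d, e, f] = √((a - d) ^ 2 + (b - e) ^ 2 + (c - f) ^ 2) := by
  rw [EuclideanSpace.dist_eq, Fin.sum_univ_three]
  simp [Real.dist_eq, sq_abs]

theorem norm3 (a b c : ℝ) : ‖(!₂[a, b, c] : E3)‖ = √(a ^ 2 + b ^ 2 + c ^ 2) := by
  rw [EuclideanSpace.norm_eq, Fin.sum_univ_three]
  simp [sq_abs]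

theorem inner3 (a b c d e f : ℝ) :
    inner ℝ (!₂[a, b, c] : E3) !₂[d, e, f] = a * d + b * e + c * f := by
  rw [PiLp.inner_apply, Fin.sum_univ_three]
  simp
  ring

theorem vsub3 (a b c d e f : ℝ) :
    (!₂[a, b, c] : E3) -ᵥ !₂[d, e, f] = !₂[a - d, b - e, c - f] := by
  ext i
  fin_cases i <;> simp

theorem lineMap3 (a b c d e f t : ℝ) :
    AffineMap.lineMap (!₂[a, b, c] : E3) !₂[d, e, f] t =
      !₂[a + t * (d - a), b + t * (e - b), c + t * (f - c)] := by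
  ext i
  fin_cases i <;> simp [AffineMap.lineMap_apply] <;> ring

theorem angle1 (θ : ℝ) :
    EuclideanGeometry.angle B1 A1 (C1 θ) = arccos ((1 + cos θ) / 2) := by
  rw [EuclideanGeometry.angle, B1, A1, C1, vsub3, vsub3, InnerProductGeometry.angle, inner3, norm3,
    norm3]
  have h1 : ((1 : ℝ) - 0) ^ 2 + (1 - 0) ^ 2 + (0 - 0) ^ 2 = 2 := by norm_num
  have h2 : ((1 : ℝ) - 0) ^ 2 + (cos θ - 0) ^ 2 + (sin θ - 0) ^ 2 = 2 := by
    nlinarith [sin_sq_add_cos_sq θ]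
  rw [h1, h2, Real.mul_self_sqrt (by norm_num)]
  congr 1
  ring

theorem angle2 (θ : ℝ) :
    EuclideanGeometry.angle (C2 θ) B2 A2 = arccos ((1 + cos θ) / 2) := by
  rw [EuclideanGeometry.angle, B2, A2, C2, vsub3, vsub3, InnerProductGeometry.angle, inner3, norm3,
    norm3]
  have h1 : ((0 : ℝ) - 1) ^ 2 + (1 - 0) ^ 2 + (2 - 2) ^ 2 = 2 := by norm_num
  have h2 : ((0 : ℝ) - 1) ^ 2 + (cos θ - 0) ^ 2 + (2 - sin θ - 2) ^ 2 = 2 := by
    nlinarith [sin_sq_add_cos_sq θ]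
  rw [h1, h2, Real.mul_self_sqrt (by norm_num)]
  congr 1
  ring

theorem costM_eq (θ : ℝ) :
    costM θ = 2 * (√2 * arccos ((1 + cos θ) / 2) + √(5 - 4 * sin θ)) := by
  rw [costM, angle1, angle2, C1, B2, A1, C2, dist3, dist3]
  have h1 : ((1 : ℝ) - 1) ^ 2 + (cos θ - 0) ^ 2 + (sin θ - 2) ^ 2 = 5 - 4 * sin θ := by
    nlinarith [sin_sq_add_cos_sq θ]
  have h2 : ((0 : ℝ) - 0) ^ 2 + (0 - cos θ) ^ 2 + (0 - (2 - sin θ)) ^ 2 = 5 - 4 * sin θ := by
    nlinarith [sin_sq_add_cos_sq θ]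
  rw [h1, h2]
  ring

theorem le_arccos_aux (y : ℝ) (h0 : 0 ≤ y) (h1 : y ≤ 0.71) :
    2 * (y + y ^ 3 / 6) ≤ arccos (1 - 2 * y ^ 2) := by
  set w := y + y ^ 3 / 6 with hw
  have hy3 : y ^ 3 ≤ 0.36 := by
    calc y ^ 3 ≤ 0.71 ^ 3 := by gcongr
      _ ≤ 0.36 := by norm_num
  have hw0 : 0 ≤ w := by positivity
  have hw1 : w ≤ 0.77 := by rw [hw]; linarith
  have hsin : sin w ≤ y := by
    have hb := Real.sin_bound (x := w) (by rw [abs_of_nonneg hw0]; linarith)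
    rw [abs_of_nonneg hw0] at hb
    have hb2 := (abs_le.mp hb).2
    have hy2 : y ^ 2 ≤ 0.51 := by nlinarith
    have e1 : w = y * (1 + y ^ 2 / 6) := by rw [hw]; ring
    have hq : 1 + y ^ 2 / 6 ≤ 1.1 := by linarith
    have hq0 : 0 ≤ 1 + y ^ 2 / 6 := by positivity
    have h5 : w ^ 5 ≤ y ^ 5 * 1.1 ^ 5 := by
      rw [e1, mul_pow]
      gcongr
    have h3 : y ^ 3 + y ^ 5 / 2 ≤ w ^ 3 := by
      have : w ^ 3 = y ^ 3 + y ^ 5 / 2 + (y ^ 7 / 12 + y ^ 9 / 216) := by rw [hw]; ring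
      rw [this]
      have : 0 ≤ y ^ 7 / 12 + y ^ 9 / 216 := by positivity
      linarith
    have h6 : 0 ≤ y ^ 5 := by positivity
    nlinarith
  have hsin0 : 0 ≤ sin w := sin_nonneg_of_nonneg_of_le_pi hw0 (by linarith [pi_gt_three])
  have hcos : 1 - 2 * y ^ 2 ≤ cos (2 * w) := by
    rw [cos_two_mul, cos_sq']
    nlinarith
  calc 2 * w = arccos (cos (2 * w)) :=
        (arccos_cos (by linarith) (by linarith [pi_gt_three])).symm
    _ ≤ arccos (1 - 2 * y ^ 2) := arccos_le_arccos hcos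

theorem poly_pos (h : ℝ) (h0 : 0.2 ≤ h) (h1 : h ≤ 0.71) :
    (4.493 - 4 * h - h ^ 3 / 3) ^ 2 ≤ 4 * (5 - 8 * h + 4 * h ^ 3 + h ^ 5) := by
  obtain ⟨t, rfl⟩ : ∃ t, h = 0.39 + t := ⟨h - 0.39, by ring⟩
  have t0 : -0.19 ≤ t := by linarith
  have t1 : t ≤ 0.32 := by linarith
  have a1 : 0 ≤ t ^ 2 * (t + 0.19) := mul_nonneg (sq_nonneg t) (by linarith)
  have a2 : 0 ≤ t ^ 4 * (t + 0.19) := mul_nonneg (by positivity) (by linarith)
  have a3 : 0 ≤ t ^ 4 * (1 - t ^ 2) := mul_nonneg (by positivity) (by nlinarith)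
  have a4 : 0 ≤ t ^ 4 := by positivity
  have a5 : 0 ≤ (t - 0.01) ^ 2 := sq_nonneg _
  nlinarith

theorem costM_ge (θ : ℝ) (hs : sin θ ≤ -0.1 ∨ 0.4 ≤ sin θ ∨ cos θ ≤ 0) : 4.493 ≤ costM θ := by
  rw [costM_eq]
  have hc1 := cos_le_one θ
  have hc2 := neg_one_le_cos θ
  have hs1 := sin_le_one θ
  have hsc := sin_sq_add_cos_sq θ
  have r2 : √2 * √2 = 2 := Real.mul_self_sqrt (by norm_num)
  have r2p : 0 < √2 := by positivity
  have r2l : 1.414 ≤ √2 := Real.le_sqrt_of_sq_le (by norm_num)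
  set y := √((1 - cos θ) / 4) with hy
  have hy0 : 0 ≤ y := Real.sqrt_nonneg _
  have hy2 : y ^ 2 = (1 - cos θ) / 4 := Real.sq_sqrt (by linarith)
  have hy1 : y ≤ 0.71 := by nlinarith
  have hang := le_arccos_aux y hy0 hy1
  have e : 1 - 2 * y ^ 2 = (1 + cos θ) / 2 := by rw [hy2]; ring
  rw [e] at hang
  set h := √2 * y with hh
  have hh0 : 0 ≤ h := by positivity
  have hh2 : h ^ 2 = (1 - cos θ) / 2 := by rw [hh, mul_pow, hy2, sq, r2]; ring
  have hA : 2 * h + h ^ 3 / 6 ≤ √2 * arccos ((1 + cos θ) / 2) := by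
    have : 2 * h + h ^ 3 / 6 = √2 * (2 * (y + y ^ 3 / 6)) := by
      rw [hh]
      linear_combination (√2 * y ^ 3 / 6) * r2
    rw [this]
    exact mul_le_mul_of_nonneg_left hang r2p.le
  have h3 : 0 ≤ h ^ 3 := by positivity
  have hone : 1 ≤ √(5 - 4 * sin θ) := Real.le_sqrt_of_sq_le (by linarith)
  by_cases hbig : 0.7 ≤ h
  · linarith
  push Not at hbig
  rcases hs with hs | hs | hs
  · have : 2.3 ≤ √(5 - 4 * sin θ) := Real.le_sqrt_of_sq_le (by linarith)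
    linarith
  · have hsq : sin θ ^ 2 = 4 * h ^ 2 * (1 - h ^ 2) := by
      rw [hh2]; nlinarith
    have hx : h ^ 2 ≤ 0.49 := by nlinarith
    have hq0 : 0 ≤ 1 - h ^ 2 / 2 - h ^ 4 / 8 := by nlinarith
    have hsle : sin θ ≤ 2 * h * (1 - h ^ 2 / 2 - h ^ 4 / 8) := by
      apply abs_le_of_sq_le_sq' _ (by positivity) |>.2
      rw [hsq]
      have : (2 * h * (1 - h ^ 2 / 2 - h ^ 4 / 8)) ^ 2 =
          4 * h ^ 2 * (1 - h ^ 2) + 4 * h ^ 2 * (h ^ 6 / 8 + h ^ 8 / 64) := by ring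
      rw [this]
      have : 0 ≤ 4 * h ^ 2 * (h ^ 6 / 8 + h ^ 8 / 64) := by positivity
      linarith
    have hlow : 0.2 ≤ h := by
      have : 2 * h * (1 - h ^ 2 / 2 - h ^ 4 / 8) ≤ 2 * h := by
        have : 0 ≤ h * (h ^ 2 / 2 + h ^ 4 / 8) := by positivity
        nlinarith
      linarith
    have hp := poly_pos h hlow (by linarith)
    have : (4.493 - 4 * h - h ^ 3 / 3) / 2 ≤ √(5 - 4 * sin θ) := by
      apply Real.le_sqrt_of_sq_le
      nlinarith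
    linarith
  · nlinarith

theorem admissible_cases (θ : ℝ) (h : Admissible θ) :
    sin θ ≤ -0.1 ∨ 0.4 ≤ sin θ ∨ cos θ ≤ 0 := by
  by_contra hcon
  push Not at hcon
  obtain ⟨s1, s2, -⟩ := hcon
  obtain ⟨a, b, ca, cb, ma, mb, a0, a1, b0, b1, hd⟩ := h
  have hiv := intermediate_value_Icc (zero_le_one' ℝ) (ca.add cb)
  obtain ⟨t, ht, hab⟩ := hiv (show (0.05 : ℝ) ∈ Icc ((a + b) 0) ((a + b) 1) by
    simp only [Pi.add_apply, a0, a1, b0, b1]
    constructor <;> norm_num)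
  simp only [Pi.add_apply] at hab
  have ha : 0 ≤ a t := a0 ▸ ma (left_mem_Icc.mpr zero_le_one) ht ht.1
  have hb : 0 ≤ b t := b0 ▸ mb (left_mem_Icc.mpr zero_le_one) ht ht.1
  have h1 := hd t ht
  rw [A1, C2, C1, B2, lineMap3, lineMap3, dist3] at h1
  have h2 := (Real.sqrt_inj (by positivity) (by norm_num)).mp h1
  have hsc := sin_sq_add_cos_sq θ
  set s := sin θ
  set c := cos θ
  obtain ⟨v, hv⟩ : ∃ v, v = b t - a t := ⟨_, rfl⟩
  have ea : a t = (0.05 - v) / 2 := by linarith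
  have eb : b t = (0.05 + v) / 2 := by linarith
  have v1 : -0.05 ≤ v := by linarith
  have v2 : v ≤ 0.05 := by linarith
  rw [ea, eb] at h2
  have h3 : 0.9025 * (1 - s ^ 2) + (s + v * (2 - s)) ^ 2 = 1 := by
    linear_combination h2 - 0.9025 * hsc
  have k1 : v * (2 - s) ≤ 0.05 * (2 - s) := mul_le_mul_of_nonneg_right v2 (by linarith)
  have k2 : -0.05 * (2 - s) ≤ v * (2 - s) := mul_le_mul_of_nonneg_right v1 (by linarith)
  rcases le_total 0 s with hs | hs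
  · have : (s + v * (2 - s)) ^ 2 ≤ (0.95 * s + 0.1) ^ 2 := by
      apply sq_le_sq'
      · linarith
      · linarith
    nlinarith
  · have : (s + v * (2 - s)) ^ 2 ≤ (0.21) ^ 2 := by
      apply sq_le_sq'
      · linarith
      · linarith
    nlinarith

theorem admissible_pi_div_two : Admissible (π / 2) := by
  refine ⟨id, id, continuousOn_id, continuousOn_id, monotoneOn_id, monotoneOn_id, rfl, rfl, rfl,
    rfl, fun t _ => ?_⟩
  rw [A1, C2, C1, B2, lineMap3, lineMap3, dist3, sin_pi_div_two, cos_pi_div_two]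
  congr 1
  simp only [id]
  ring

theorem mStar_ge : 4.493 ≤ mStar := by
  refine le_csInf ⟨_, π / 2, admissible_pi_div_two, rfl⟩ ?_
  rintro _ ⟨θ, hθ, rfl⟩
  exact costM_ge θ (admissible_cases θ hθ)

end Pool.Agent.Lib.MP_9fae52_an
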