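import Pool.Agent.Lib.MP_9fae52_an.Lower

namespace Pool.Agent.Lib.MP_9fae52_an

open Set Real

theorem eVar_le (γ : ℝ → E3) (φ : ℝ → ℝ)
    (h : ∀ s t, s ≤ t → dist (γ t) (γ s) ≤ φ t - φ s) :
    eVariationOn γ (Icc 0 1) ≤ ENNReal.ofReal (φ 1 - φ 0) := by
  have mono : ∀ s t, s ≤ t → φ s ≤ φ t := fun s t hst => by
    have := h s t hst
    linarith [dist_nonneg (x := γ t) (y := γ s)]
  refine iSup_le ?_
  rintro ⟨n, u, hu, us⟩
  have key : ∀ m : ℕ, ∑ i ∈ Finset.range m, edist (γ (u (i + 1))) (γ (u i)) ≤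
      ENNReal.ofReal (φ (u m) - φ (u 0)) := by
    intro m
    induction m with
    | zero => simp
    | succ m ih =>
      rw [Finset.sum_range_succ, edist_dist]
      have e : φ (u (m + 1)) - φ (u 0) = (φ (u m) - φ (u 0)) + (φ (u (m + 1)) - φ (u m)) := by ring
      rw [e, ENNReal.ofReal_add (by linarith [mono _ _ (hu (Nat.zero_le m))])
        (by linarith [mono _ _ (hu (Nat.le_succ m))])]
      exact add_le_add ih (ENNReal.ofReal_le_ofReal (h _ _ (hu (Nat.le_succ m))))
  refine (key n).trans (ENNReal.ofReal_le_ofReal ?_)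
  linarith [mono _ _ (us n).2, mono _ _ (us 0).1]

/-- clamp to the unit interval -/
noncomputable def cl (x : ℝ) : ℝ := max 0 (min 1 x)

theorem cl_mono : Monotone cl := fun _ _ h => max_le_max le_rfl (min_le_min le_rfl h)
theorem cl_nonneg (x : ℝ) : 0 ≤ cl x := le_max_left _ _
theorem cl_le_one (x : ℝ) : cl x ≤ 1 := max_le zero_le_one (min_le_left _ _)
theorem cl_of_le {x : ℝ} (h : x ≤ 0) : cl x = 0 :=
  max_eq_left ((min_le_right _ _).trans h)
theorem cl_of_ge {x : ℝ} (h : 1 ≤ x) : cl x = 1 := by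
  rw [cl, min_eq_left h, max_eq_right zero_le_one]
theorem cl_of_mem {x : ℝ} (h0 : 0 ≤ x) (h1 : x ≤ 1) : cl x = x := by
  rw [cl, min_eq_right h1, max_eq_right h0]
theorem cl_cont : Continuous cl := continuous_const.max (continuous_const.min continuous_id)

/-- the angle of the first stage -/
noncomputable def al : ℝ := arcsin (5 / 13)

theorem sin_al : sin al = 5 / 13 := sin_arcsin (by norm_num) (by norm_num)
theorem cos_al : cos al = 12 / 13 := by
  rw [al, cos_arcsin]
  rw [show (1 : ℝ) - (5 / 13) ^ 2 = (12 / 13) ^ 2 by norm_num]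
  exact Real.sqrt_sq (by norm_num)
theorem al_nonneg : 0 ≤ al := arcsin_nonneg.mpr (by norm_num)
theorem al_le : al ≤ 0.3949 := by
  have h1 := sin_ge_sub_cube (x := 0.3949) (by norm_num)
  have h2 : (5 / 13 : ℝ) ≤ sin 0.3949 := le_trans (by norm_num) h1
  calc al ≤ arcsin (sin 0.3949) := arcsin_le_arcsin h2
    _ = 0.3949 := arcsin_sin (by linarith [pi_gt_three]) (by linarith [pi_gt_three])

/-- the lag between the two ends in the second stage -/
noncomputable def vv (τ : ℝ) : ℝ :=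
  (√(1078 ^ 2 + 3368 * 3844 * (τ * (1 - τ))) - 1078) / 3368

theorem vv_cont : Continuous vv := by
  unfold vv
  fun_prop

theorem vv_symm (τ : ℝ) : vv (1 - τ) = vv τ := by
  unfold vv
  congr 3
  ring

theorem vv_zero : vv 0 = 0 := by
  unfold vv
  rw [show (1078 : ℝ) ^ 2 + 3368 * 3844 * (0 * (1 - 0)) = 1078 ^ 2 by ring,
    Real.sqrt_sq (by norm_num)]
  norm_num

theorem vv_one : vv 1 = 0 := by
  have := vv_symm 0
  rw [sub_zero] at this
  rw [this, vv_zero]

theorem vv_spec {τ : ℝ} (h0 : 0 ≤ τ) (h1 : τ ≤ 1) :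
    0 ≤ vv τ ∧ 3368 * vv τ ^ 2 + 2156 * vv τ = 3844 * (τ * (1 - τ)) := by
  have hp : 0 ≤ τ * (1 - τ) := mul_nonneg h0 (by linarith)
  have hD : (0 : ℝ) ≤ 1078 ^ 2 + 3368 * 3844 * (τ * (1 - τ)) := by positivity
  have hsq := Real.sq_sqrt hD
  have hge : (1078 : ℝ) ≤ √(1078 ^ 2 + 3368 * 3844 * (τ * (1 - τ))) :=
    Real.le_sqrt_of_sq_le (by linarith)
  unfold vv
  refine ⟨div_nonneg (by linarith) (by norm_num), ?_⟩
  linear_combination (1 / 3368) * hsq

/-- position parameter of B on its segment -/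
noncomputable def bb (τ : ℝ) : ℝ := τ + vv τ / 2

theorem bb_mono {σ τ : ℝ} (h0 : 0 ≤ σ) (h : σ ≤ τ) (h1 : τ ≤ 1) : bb σ ≤ bb τ := by
  obtain ⟨p1, e1⟩ := vv_spec h0 (h.trans h1)
  obtain ⟨p2, e2⟩ := vv_spec (h0.trans h) h1
  unfold bb
  by_contra hcon
  push Not at hcon
  have hd : 2 * (τ - σ) < vv σ - vv τ := by linarith
  have e : (vv σ - vv τ) * (3368 * (vv σ + vv τ) + 2156) = 3844 * ((τ - σ) * (σ + τ - 1)) := by
    linear_combination e1 - e2
  have k1 : (τ - σ) * (σ + τ - 1) ≤ (τ - σ) * 1 :=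
    mul_le_mul_of_nonneg_left (by linarith) (by linarith)
  have k2 : (vv σ - vv τ) * 2156 ≤ (vv σ - vv τ) * (3368 * (vv σ + vv τ) + 2156) :=
    mul_le_mul_of_nonneg_left (by linarith) (by linarith)
  linarith

/-- the point with arc parameter s and segment parameter b -/
noncomputable def pt (s b : ℝ) : E3 :=
  !₂[cos s + sin s / 3 - 2 / 39 * b, cos s - sin s / 3 - 31 / 39 * b, 4 / 3 * sin s + 58 / 39 * b]

/-- its image under the isometry exchanging the two diagonals -/
noncomputable def pt' (s b : ℝ) : E3 :=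
  !₂[1 - (cos s + sin s / 3 - 2 / 39 * b), cos s - sin s / 3 - 31 / 39 * b,
    2 - (4 / 3 * sin s + 58 / 39 * b)]

theorem dist_pt'_pt' (s b s' b' : ℝ) : dist (pt' s b) (pt' s' b') = dist (pt s b) (pt s' b') := by
  rw [pt', pt', pt, pt, dist3, dist3]
  congr 1
  ring

theorem dist_pt_arc (s s' b : ℝ) (h : s ≤ s') : dist (pt s' b) (pt s b) ≤ √2 * (s' - s) := by
  rw [pt, pt, dist3]
  apply Real.sqrt_le_iff.mpr
  refine ⟨by positivity, ?_⟩
  rw [mul_pow, Real.sq_sqrt (by norm_num)]
  have h1 := one_sub_sq_div_two_le_cos (x := s' - s)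
  rw [cos_sub] at h1
  nlinarith [sin_sq_add_cos_sq s, sin_sq_add_cos_sq s']

theorem dist_pt_seg (s b b' : ℝ) (h : b ≤ b') : dist (pt s b') (pt s b) ≤ 1.6871 * (b' - b) := by
  rw [pt, pt, dist3]
  apply Real.sqrt_le_iff.mpr
  refine ⟨mul_nonneg (by norm_num) (by linarith), ?_⟩
  nlinarith [sq_nonneg (b' - b)]

/-- the curve described by B -/
noncomputable def curveB (t : ℝ) : E3 := pt (al * cl (3 * t)) (bb (cl (3 * t - 1)))
/-- the curve described by A -/
noncomputable def curveA (t : ℝ) : E3 := pt' (al * cl (3 * (1 - t))) (bb (cl (3 * (1 - t) - 1)))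
/-- control function for the length -/
noncomputable def ctrl (t : ℝ) : ℝ := √2 * (al * cl (3 * t)) + 1.6871 * bb (cl (3 * t - 1))

theorem distB (s t : ℝ) (h : s ≤ t) : dist (curveB t) (curveB s) ≤ ctrl t - ctrl s := by
  have h1 : al * cl (3 * s) ≤ al * cl (3 * t) :=
    mul_le_mul_of_nonneg_left (cl_mono (by linarith)) al_nonneg
  have h2 : bb (cl (3 * s - 1)) ≤ bb (cl (3 * t - 1)) :=
    bb_mono (cl_nonneg _) (cl_mono (by linarith)) (cl_le_one _)
  have := dist_triangle (curveB t) (pt (al * cl (3 * s)) (bb (cl (3 * t - 1)))) (curveB s)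
  have k1 := dist_pt_arc _ _ (bb (cl (3 * t - 1))) h1
  have k2 := dist_pt_seg (al * cl (3 * s)) _ _ h2
  unfold curveB ctrl at *
  linarith

theorem bb_zero : bb 0 = 0 := by rw [bb, vv_zero]; norm_num
theorem bb_one : bb 1 = 1 := by rw [bb, vv_one]; norm_num

theorem ctrl_total : ctrl 1 - ctrl 0 ≤ 2.246 := by
  unfold ctrl
  rw [cl_of_ge (by norm_num), cl_of_ge (by norm_num), cl_of_le (by norm_num),
    cl_of_le (by norm_num), bb_zero, bb_one]
  have r2 : √2 ≤ 1.4143 := Real.sqrt_le_iff.mpr ⟨by norm_num, by norm_num⟩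
  have := mul_le_mul r2 al_le al_nonneg (by norm_num)
  linarith

theorem pt_cont : Continuous fun p : ℝ × ℝ => pt p.1 p.2 := by
  unfold pt
  refine (PiLp.continuous_toLp 2 _).comp (continuous_pi fun i => ?_)
  fin_cases i <;> simp <;> fun_prop

theorem pt'_cont : Continuous fun p : ℝ × ℝ => pt' p.1 p.2 := by
  unfold pt'
  refine (PiLp.continuous_toLp 2 _).comp (continuous_pi fun i => ?_)
  fin_cases i <;> simp <;> fun_prop

theorem bb_cont : Continuous bb := by
  have := vv_cont
  unfold bb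
  fun_prop

theorem isMotion : IsMotion curveA curveB := by
  have c1 := cl_cont
  have c2 := bb_cont
  refine ⟨?_, ?_, ?_, ?_, ?_, ?_, ?_⟩
  · exact (pt'_cont.comp (f := fun t : ℝ =>
      (al * cl (3 * (1 - t)), bb (cl (3 * (1 - t) - 1)))) (by fun_prop)).continuousOn
  · exact (pt_cont.comp (f := fun t : ℝ =>
      (al * cl (3 * t), bb (cl (3 * t - 1)))) (by fun_prop)).continuousOn
  · intro t _
    unfold curveA curveB
    rw [pt, pt', dist3]
    congr 1
    rcases le_total t (1 / 3) with h | h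
    · rw [cl_of_ge (x := 3 * (1 - t)) (by linarith), cl_of_ge (x := 3 * (1 - t) - 1) (by linarith),
        cl_of_le (x := 3 * t - 1) (by linarith), bb_zero, bb_one, mul_one, sin_al, cos_al]
      nlinarith [sin_sq_add_cos_sq (al * cl (3 * t))]
    rcases le_total t (2 / 3) with h' | h'
    · rw [cl_of_ge (x := 3 * (1 - t)) (by linarith), cl_of_ge (x := 3 * t) (by linarith),
        cl_of_mem (x := 3 * (1 - t) - 1) (by linarith) (by linarith),
        cl_of_mem (x := 3 * t - 1) (by linarith) (by linarith), mul_one, sin_al, cos_al]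
      have e : 3 * (1 - t) - 1 = 1 - (3 * t - 1) := by ring
      obtain ⟨-, hv⟩ := vv_spec (τ := 3 * t - 1) (by linarith) (by linarith)
      rw [e, bb, bb, vv_symm]
      linear_combination (1 / 1521) * hv
    · rw [cl_of_ge (x := 3 * t) (by linarith), cl_of_ge (x := 3 * t - 1) (by linarith),
        cl_of_le (x := 3 * (1 - t) - 1) (by linarith), bb_zero, bb_one, mul_one, sin_al, cos_al]
      nlinarith [sin_sq_add_cos_sq (al * cl (3 * (1 - t)))]
  · unfold curveA
    rw [cl_of_ge (by norm_num), cl_of_ge (by norm_num), bb_one, mul_one, pt', sin_al, cos_al, A1]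
    norm_num
  · unfold curveB
    rw [cl_of_le (by norm_num), cl_of_le (by norm_num), bb_zero, mul_zero, pt, B1]
    norm_num
  · unfold curveA
    rw [cl_of_le (by norm_num), cl_of_le (by norm_num), bb_zero, mul_zero, pt', A2]
    norm_num
  · unfold curveB
    rw [cl_of_ge (by norm_num), cl_of_ge (by norm_num), bb_one, mul_one, pt, sin_al, cos_al, B2]
    norm_num

theorem cost_le : cost curveA curveB ≤ ENNReal.ofReal 4.492 := by
  have hB := eVar_le curveB ctrl distB
  have hA := eVar_le curveA (fun t => -ctrl (1 - t)) (fun s t h => by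
    have := distB (1 - t) (1 - s) (by linarith)
    unfold curveA
    unfold curveB at this
    rw [dist_pt'_pt', dist_comm]
    linarith)
  have e : -ctrl (1 - 1) - -ctrl (1 - 0) = ctrl 1 - ctrl 0 := by
    rw [sub_self, sub_zero]; ring
  simp only [e] at hA
  have h := ENNReal.ofReal_le_ofReal ctrl_total
  calc cost curveA curveB ≤ ENNReal.ofReal 2.246 + ENNReal.ofReal 2.246 :=
        add_le_add (hA.trans h) (hB.trans h)
    _ = ENNReal.ofReal 4.492 := by
        rw [← ENNReal.ofReal_add (by norm_num) (by norm_num)]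
        norm_num

theorem infCost_le : infCost ≤ ENNReal.ofReal 4.492 :=
  iInf_le_of_le curveA (iInf_le_of_le curveB (iInf_le_of_le isMotion cost_le))

end Pool.Agent.Lib.MP_9fae52_an
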